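import Mathlib
import Pool.Agent.Helper70.FlipDefs
import Pool.Agent.Helper70.FlipExists

set_option autoImplicit false

open Pool.Agent.Helper70.Flip

namespace Pool.Agent.Results.MP_56a9b7_co.FlipConstant

theorem infinite_of_lt (c : ℝ) (hc : c < 5 / 4) :
    {a : Fin 3 → ℕ | IsFlipSequence a ∧ c * (a 0 : ℝ) ^ 2 ≤ a 2}.Infinite := by
  intro hfin
  have hb := (hfin.image (fun a => a 0)).bddAbove
  obtain ⟨M, hM⟩ := hb
  obtain ⟨N, hN⟩ := exists_nat_ge (25 / (4 * (5 - 4 * c)))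
  obtain ⟨p, hpN, hp⟩ := Nat.exists_infinite_primes (M + N + 5)
  obtain ⟨n, rfl⟩ : ∃ n, p = n + 3 := ⟨p - 3, by omega⟩
  obtain ⟨y, hy⟩ : ∃ y, y = (n + 2) * (n + 3) := ⟨_, rfl⟩
  have hypos : 1 ≤ y := by rw [hy]; exact Nat.one_le_iff_ne_zero.mpr (by positivity)
  have hy2 : 1 ≤ y ^ 2 := Nat.one_le_pow _ _ hypos
  have hr : (5 * y ^ 2 - 1) + 1 = 5 * ((n + 2) * (n + 3)) ^ 2 := by rw [← hy]; omega
  have hflip := flipSequence_exists n hp (5 * y ^ 2 - 1) hr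
  have hmem : (![2 * ((n + 2) * (n + 3)) + (n + 2), 2 * ((n + 2) * ((n + 2) * (n + 3))),
        2 * (n * ((n + 2) * (n + 3))) + (5 * y ^ 2 - 1)] : Fin 3 → ℕ) ∈
      {a : Fin 3 → ℕ | IsFlipSequence a ∧ c * (a 0 : ℝ) ^ 2 ≤ a 2} := by
    refine ⟨hflip, ?_⟩
    simp only [Matrix.cons_val]
    have h1 : (5 * y ^ 2 : ℕ) ≤ 2 * (n * ((n + 2) * (n + 3))) + (5 * y ^ 2 - 1) := by
      have h2 : 1 ≤ n * ((n + 2) * (n + 3)) := by
        rw [← hy]
        exact Nat.one_le_iff_ne_zero.mpr (Nat.mul_ne_zero (by omega) (by omega))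
      omega
    have h3 : ((5 * y ^ 2 : ℕ) : ℝ) ≤
        ((2 * (n * ((n + 2) * (n + 3))) + (5 * y ^ 2 - 1) : ℕ) : ℝ) := by exact_mod_cast h1
    refine le_trans ?_ h3
    have hm : (25 / (4 * (5 - 4 * c)) : ℝ) ≤ (n : ℝ) + 3 := by
      have : ((M + N + 5 : ℕ) : ℝ) ≤ ((n + 3 : ℕ) : ℝ) := by exact_mod_cast hpN
      push_cast at this
      have : (0 : ℝ) ≤ M := Nat.cast_nonneg _
      linarith
    have hpos : 0 < 4 * (5 - 4 * c) := by linarith
    rw [div_le_iff₀ hpos] at hm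
    have hn0 : (0 : ℝ) ≤ n := Nat.cast_nonneg _
    have key : c * (2 * ((n : ℝ) + 3) + 1) ^ 2 ≤ 5 * ((n : ℝ) + 3) ^ 2 := by
      by_cases hc0 : c ≤ 0
      · have h4 : c * (2 * ((n : ℝ) + 3) + 1) ^ 2 ≤ 0 :=
          mul_nonpos_of_nonpos_of_nonneg hc0 (sq_nonneg _)
        have h5 : 0 ≤ 5 * ((n : ℝ) + 3) ^ 2 := by positivity
        linarith
      · push Not at hc0
        have h4 : c * (4 * ((n : ℝ) + 3) + 1) ≤ 5 / 4 * (5 * ((n : ℝ) + 3)) := by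
          apply mul_le_mul hc.le (by linarith) (by positivity) (by norm_num)
        have h5 : 5 / 4 * (5 * ((n : ℝ) + 3)) ≤ (5 - 4 * c) * ((n : ℝ) + 3) ^ 2 := by
          nlinarith
        nlinarith
    rw [hy]
    push_cast
    have e1 : c * (2 * (((n : ℝ) + 2) * (n + 3)) + (n + 2)) ^ 2 =
        ((n : ℝ) + 2) ^ 2 * (c * (2 * ((n : ℝ) + 3) + 1) ^ 2) := by ring
    have e2 : 5 * (((n : ℝ) + 2) * (n + 3)) ^ 2 =
        ((n : ℝ) + 2) ^ 2 * (5 * ((n : ℝ) + 3) ^ 2) := by ring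
    rw [e1, e2]
    exact mul_le_mul_of_nonneg_left key (sq_nonneg _)
  have h6 := hM ⟨_, hmem, rfl⟩
  simp only [Matrix.cons_val_zero] at h6
  have h7 : n + 2 ≤ M := by
    have : n + 2 ≤ 2 * ((n + 2) * (n + 3)) + (n + 2) := Nat.le_add_left _ _
    omega
  omega

/-- The constant `c*`, the supremum of the `c` for which infinitely many 3-flip sequences
`(a_1, a_2, a_3)` satisfy `a_3 ≥ c a_1²`, equals `5/4`. -/
theorem result :
    IsLUB {c : ℝ | {a : Fin 3 → ℕ | IsFlipSequence a ∧ c * (a 0 : ℝ) ^ 2 ≤ a 2}.Infinite}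
      (5 / 4) := by
  constructor
  · intro c hc
    obtain ⟨a, ha, hac⟩ := Set.Infinite.nonempty hc
    have h1 := flipSequence_upper a ha
    have h2 : (0 : ℝ) < a 0 := by exact_mod_cast ha.1 0
    have h3 : c * (a 0 : ℝ) ^ 2 < 5 / 4 * (a 0 : ℝ) ^ 2 := lt_of_le_of_lt hac h1
    exact (lt_of_mul_lt_mul_right h3 (sq_nonneg _)).le
  · intro b hb
    by_contra hlt
    push Not at hlt
    obtain ⟨c, hbc, hc⟩ := exists_between hlt
    have := hb (infinite_of_lt c hc)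
    linarith

end Pool.Agent.Results.MP_56a9b7_co.FlipConstant
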